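import Pool.Agent.P.MP_1ac4dc_an.RMain

theorem Pool.Agent.Results.MP_1ac4dc_an.IntegerZeros.result (m : ℕ) (hm : 2 ≤ m) (f : ℂ → ℂ)
    (hf : ∀ z : ℂ, f z = ∑' k : ℕ, ((Nat.factorial (m * k) : ℂ) /
      ((Nat.factorial ((m + 1) * k) : ℂ) * (Nat.factorial k : ℂ))) * z ^ k) :
    ∃ t : ℕ → ℝ,
      (∀ n : ℕ, |t n - ((n : ℝ) + 1 / 2) * Real.pi| ≤
        Real.arcsin (√(2 * (m : ℝ) / ((m : ℝ) + 1)) - 1)) ∧
      (∀ z : ℂ, f z = 0 ↔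
        ∃ n, z = ((-(((m : ℝ) + 1) ^ (m + 1) / (4 * (m : ℝ) ^ m) * t n ^ 2) : ℝ) : ℂ)) ∧
      ∀ n, deriv f ((-(((m : ℝ) + 1) ^ (m + 1) / (4 * (m : ℝ) ^ m) * t n ^ 2) : ℝ) : ℂ) ≠ 0 := by
  have hm' : (2 : ℝ) ≤ m := by exact_mod_cast hm
  have h : f = Pool.Agent.P.MP_1ac4dc_an.FF (m : ℝ) := by
    funext z
    rw [hf, Pool.Agent.P.MP_1ac4dc_an.FF]
    refine tsum_congr fun k => ?_
    congr 1
    have e1 : Real.Gamma ((m : ℝ) * k + 1) = (Nat.factorial (m * k) : ℝ) := by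
      rw [← Real.Gamma_nat_eq_factorial]; push_cast; rfl
    have e2 : Real.Gamma (((m : ℝ) + 1) * k + 1) = (Nat.factorial ((m + 1) * k) : ℝ) := by
      rw [← Real.Gamma_nat_eq_factorial]; push_cast; rfl
    rw [Pool.Agent.P.MP_1ac4dc_an.co, e1, e2]
    push_cast; rfl
  have hk : Pool.Agent.P.MP_1ac4dc_an.ka (m : ℝ)
      = ((m : ℝ) + 1) ^ (m + 1) / (4 * (m : ℝ) ^ m) := by
    rw [Pool.Agent.P.MP_1ac4dc_an.ka, ← Real.rpow_natCast, ← Real.rpow_natCast]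
    push_cast; rfl
  have h1 : (1 : ℝ) ≤ √(2 * (m : ℝ) / ((m : ℝ) + 1)) := by
    rw [Real.one_le_sqrt, le_div_iff₀ (by linarith)]; linarith
  have hmax : max √(2 * (m : ℝ) / ((m : ℝ) + 1)) (√(2 * (m : ℝ) / ((m : ℝ) + 1)))⁻¹
      = √(2 * (m : ℝ) / ((m : ℝ) + 1)) :=
    max_eq_left ((inv_le_one_of_one_le₀ h1).trans h1)
  have := Pool.Agent.P.MP_1ac4dc_an.real_main (a := (m : ℝ)) (by linarith)
  rw [hk, hmax] at this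
  rw [h]
  exact this
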